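import Pool.Agent.Lib.RScal.Main

namespace Pool.Agent.Results.MP_a150d7_gt.RiemannianFlag

open Pool.Agent.Lib.MP_a150d7_gt Pool.Agent.Lib.RScal

/-- Let `𝔤` be a nonzero finite-dimensional real Lie algebra with a complete flag of subalgebras
(every solvable `𝔤` has one, `flag_of_solvable`), with a Hermitian structure whose Riemannian
holomorphic sectional curvature is a constant `c`. Then `c ≤ 0`; if `c = 0` the metric is flat;
and `c = 0` if `𝔤` has a nonzero ideal with an `ad 𝔤`-invariant inner product. -/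
theorem result {𝔤 : Type} [LieRing 𝔤] [LieAlgebra ℝ 𝔤] [FiniteDimensional ℝ 𝔤] [Nontrivial 𝔤]
    (g : 𝔤 →ₗ[ℝ] 𝔤 →ₗ[ℝ] ℝ) (J : 𝔤 →ₗ[ℝ] 𝔤) (hgJ : IsHermitianStructure g J)
    (hflag : HasCompleteFlag 𝔤) (D : 𝔤 →ₗ[ℝ] 𝔤 →ₗ[ℝ] 𝔤) (hD : IsLeviCivita g D)
    (c : ℝ) (hc : ∀ x, x ≠ 0 → holSec g J D x = c) :
    c ≤ 0 ∧ (c = 0 → ∀ x y z, curv D x y z = 0) ∧ (HasCompactIdeal 𝔤 → c = 0) :=
  rscal_main g J hgJ hflag D hD c hc

end Pool.Agent.Results.MP_a150d7_gt.RiemannianFlag
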