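import Pool.Agent.Lib.CSol.Final

namespace Pool.Agent.Results.MP_a150d7_gt.SolvableChernFlat

open Pool.Agent.Lib.MP_a150d7_gt

/-- Let `𝔤` be a nonzero finite-dimensional solvable unimodular real Lie algebra with a Hermitian
structure `(g, J)` (`J` integrable) and let `D` be its Chern connection. If the Chern holomorphic
sectional curvature is constant, or is nonpositive, then it is zero and the Chern curvature
vanishes. -/
theorem result {𝔤 : Type} [LieRing 𝔤] [LieAlgebra ℝ 𝔤] [FiniteDimensional ℝ 𝔤] [Nontrivial 𝔤]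
    [LieAlgebra.IsSolvable 𝔤]
    (g : 𝔤 →ₗ[ℝ] 𝔤 →ₗ[ℝ] ℝ) (J : 𝔤 →ₗ[ℝ] 𝔤) (hgJ : IsHermitianStructure g J)
    (huni : ∀ x : 𝔤, LinearMap.trace ℝ 𝔤 (LieAlgebra.ad ℝ 𝔤 x) = 0)
    (D : 𝔤 →ₗ[ℝ] 𝔤 →ₗ[ℝ] 𝔤) (hD : IsChernConnection g J D)
    (hc : (∃ c : ℝ, ∀ x, x ≠ 0 → holSec g J D x = c) ∨ ∀ x, x ≠ 0 → holSec g J D x ≤ 0) :
    (∀ x, holSec g J D x = 0) ∧ ∀ x y z, curv D x y z = 0 := by
  have h0 : ∀ x, x ≠ 0 → holSec g J D x ≤ 0 := by
    rcases hc with ⟨c, hc⟩ | hc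
    · intro x hx
      rw [hc x hx, Pool.Agent.Lib.ThZ.c_zero_lie g J hgJ huni D hD c hc]
    · exact hc
  have h1 := Pool.Agent.Lib.CSol.solvable_nonpos g J hgJ huni D hD h0
  refine ⟨fun x => ?_, h1⟩
  unfold holSec
  rw [h1, map_zero, LinearMap.zero_apply, zero_div]

end Pool.Agent.Results.MP_a150d7_gt.SolvableChernFlat
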