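import Pool.Agent.Lib.ThZ.Z16

namespace Pool.Agent.Results.MP_a150d7_gt.UnimodularConstantZero

open Pool.Agent.Lib.MP_a150d7_gt

/-- Let `𝔤` be a nonzero finite-dimensional unimodular real Lie algebra with a Hermitian structure
`(g, J)` (`J` integrable) and let `D` be its Chern connection. If the Chern holomorphic sectional
curvature is a constant `c`, then `c = 0`. -/
theorem result {𝔤 : Type} [LieRing 𝔤] [LieAlgebra ℝ 𝔤] [FiniteDimensional ℝ 𝔤] [Nontrivial 𝔤]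
    (g : 𝔤 →ₗ[ℝ] 𝔤 →ₗ[ℝ] ℝ) (J : 𝔤 →ₗ[ℝ] 𝔤) (hgJ : IsHermitianStructure g J)
    (huni : ∀ x : 𝔤, LinearMap.trace ℝ 𝔤 (LieAlgebra.ad ℝ 𝔤 x) = 0)
    (D : 𝔤 →ₗ[ℝ] 𝔤 →ₗ[ℝ] 𝔤) (hD : IsChernConnection g J D)
    (c : ℝ) (hc : ∀ x, x ≠ 0 → holSec g J D x = c) :
    c = 0 :=
  Pool.Agent.Lib.ThZ.c_zero_lie g J hgJ huni D hD c hc

end Pool.Agent.Results.MP_a150d7_gt.UnimodularConstantZero
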